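import Pool.Agent.MP_d9582c_gt.H34.Stmts

/-!
Invariance of the Riemannian volume under isometries and comparison with a chart on compact sets.
-/

open scoped Manifold ContDiff ENNReal Topology
open MeasureTheory Set Filter

noncomputable section

namespace Pool.Agent.MP_d9582c_gt.H92

open Pool.Agent.MP_d9582c_gt.H34

variable {n : ℕ}

lemma expand (v : E n) : v = ∑ i, v i • ee i := by
  conv_lhs => rw [← (EuclideanSpace.basisFun (Fin n) ℝ).sum_repr v]
  simp

lemma bil_expand (B : E n →L[ℝ] E n →L[ℝ] ℝ) (T : E n →L[ℝ] E n) (v w : E n) :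
    B (T v) (T w) = ∑ i, ∑ j, v i * B (T (ee i)) (T (ee j)) * w j := by
  conv_lhs => rw [expand v, expand w]
  simp only [map_sum, map_smul, sum_apply, smul_apply, smul_eq_mul, Finset.mul_sum]
  rw [Finset.sum_comm]
  exact Finset.sum_congr rfl fun _ _ => Finset.sum_congr rfl fun _ _ => by ring

lemma det_bil (B : E n →L[ℝ] E n →L[ℝ] ℝ) (T D : E n →L[ℝ] E n) :
    (Matrix.of fun i j => B (T (D (ee i))) (T (D (ee j)))).det =
      D.det ^ 2 * (Matrix.of fun i j => B (T (ee i)) (T (ee j))).det := by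
  let b := (EuclideanSpace.basisFun (Fin n) ℝ).toBasis
  let P := LinearMap.toMatrix b b D.toLinearMap
  have hP : P.det = D.det := LinearMap.det_toMatrix b _
  have h : (Matrix.of fun i j => B (T (D (ee i))) (T (D (ee j)))) =
      P.transpose * (Matrix.of fun i j => B (T (ee i)) (T (ee j))) * P := by
    ext i j
    rw [Matrix.of_apply, bil_expand B T (D (ee i)), Finset.sum_comm]
    simp [Matrix.mul_apply, P, b, LinearMap.toMatrix_apply, Finset.sum_mul]
  rw [h, Matrix.det_mul, Matrix.det_mul, Matrix.det_transpose, hP]; ring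

variable {M : Type*} [TopologicalSpace M] [ChartedSpace (E n) M] [IsManifold 𝓘(ℝ, E n) ∞ M]
  (g : RMetric n M)

lemma gx_tang_pos {x : M} {z : E n} (hz : z ∈ (chartAt (E n) x).target) {v : E n} (hv : v ≠ 0) :
    0 < gx g ((chartAt (E n) x).symm z) (tang n (chartAt (E n) x).symm z v)
      (tang n (chartAt (E n) x).symm z v) := by
  refine gx_pos g _ fun h => hv ?_
  rw [← tang_chart_comp_symm hz v, h, map_zero]

lemma det_gram_pos {x : M} {z : E n} (hz : z ∈ (chartAt (E n) x).target) :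
    0 < (gram g (chartAt (E n) x).symm z).det := by
  refine Matrix.PosDef.det_pos (Matrix.PosDef.of_dotProduct_mulVec_pos ?_ fun v hv => ?_)
  · ext i j
    simp [gram, gx_comm g _ (tang n _ z (EuclideanSpace.single i 1))]
  · have := gx_tang_pos g hz (v := WithLp.toLp 2 v) (by simpa using hv)
    rw [gx_eq, bil_expand] at this
    simpa [dotProduct, Matrix.mulVec, gram, gx_eq, Finset.mul_sum, mul_assoc] using this

lemma continuousOn_sqrt_det (x : M) :
    ContinuousOn (fun z => √(gram g (chartAt (E n) x).symm z).det) (chartAt (E n) x).target :=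
  fun _ hz => (Real.continuous_sqrt.continuousAt.comp
    ((continuous_id.matrix_det.continuousAt).comp (continuousAt_gram g (chartAt (E n) x).open_target
      contMDiffOn_chart_symm hz))).continuousWithinAt

lemma exists_gx_bounds {x₀ : M} {C : Set M} (hC : IsCompact C)
    (hs : C ⊆ (chartAt (E n) x₀).source) : ∃ a b : ℝ, 0 < a ∧ 0 ≤ b ∧ ∀ x ∈ C, ∀ v : E n,
      a * ‖tang n (chartAt (E n) x₀) x v‖ ^ 2 ≤ gx g x v v ∧
      gx g x v v ≤ b * ‖tang n (chartAt (E n) x₀) x v‖ ^ 2 := by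
  set κ := chartAt (E n) x₀
  let q : E n × E n → ℝ := fun y => gx g (κ.symm y.1) (tang n κ.symm y.1 y.2) (tang n κ.symm y.1 y.2)
  have hK : IsCompact (κ '' C) := hC.image_of_continuousOn (κ.continuousOn.mono hs)
  have ht : κ '' C ⊆ κ.target := by rintro _ ⟨x, hx, rfl⟩; exact κ.map_source (hs hx)
  have hq : ContinuousOn q ((κ '' C) ×ˢ Metric.sphere 0 1) := fun y hy => by
    have e : q = fun y => ∑ i, ∑ j, y.2 i * gx g (κ.symm y.1) (tang n κ.symm y.1 (ee i))
        (tang n κ.symm y.1 (ee j)) * y.2 j := funext fun y => bil_expand (gL g _) _ _ _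
    rw [e]
    refine ContinuousAt.continuousWithinAt
      (tendsto_finsetSum _ fun i _ => tendsto_finsetSum _ fun j _ => ?_)
    exact (ContinuousAt.mul (f := fun y : E n × E n => y.2 i) (by fun_prop)
      ((continuousAt_gx_tang g κ.open_target contMDiffOn_chart_symm (ht hy.1) _ _).comp
        continuousAt_fst)).mul (g := fun y : E n × E n => y.2 j) (by fun_prop)
  have hc := hK.prod (isCompact_sphere (0 : E n) 1)
  obtain ⟨a, ha, h1⟩ := hc.exists_forall_le' hq (a := 0) fun y hy =>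
    gx_tang_pos g (ht hy.1) (ne_zero_of_mem_unit_sphere ⟨y.2, hy.2⟩)
  obtain ⟨b, h2⟩ := hc.bddAbove_image hq
  refine ⟨a, max b 0, ha, le_max_right _ _, fun x hx v => ?_⟩
  set u := tang n κ x v with hu
  have e : gx g x v v = q (κ x, u) := by
    simp only [q, hu, tang_chart_symm_comp (hs hx), κ, (chartAt (E n) x₀).left_inv (hs hx)]
  rw [e]
  by_cases h0 : u = 0
  · simp [h0, q, gx_eq]
  have hn : 0 < ‖u‖ := norm_pos_iff.2 h0
  have hm : (κ x, ‖u‖⁻¹ • u) ∈ (κ '' C) ×ˢ Metric.sphere (0 : E n) 1 :=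
    ⟨mem_image_of_mem _ hx, by simp [norm_smul, hn.ne']⟩
  have e2 : q (κ x, u) = q (κ x, ‖u‖⁻¹ • u) * ‖u‖ ^ 2 := by
    simp only [q, gx_eq, map_smul, smul_apply, smul_eq_mul]
    field_simp
  rw [e2]
  exact ⟨mul_le_mul_of_nonneg_right (h1 _ hm) (sq_nonneg _), mul_le_mul_of_nonneg_right
    ((h2 (mem_image_of_mem _ hm)).trans (le_max_left _ _)) (sq_nonneg _)⟩

lemma nsq_bounds {x₀ : M} {C : Set M} (hC : IsCompact C) (hs : C ⊆ (chartAt (E n) x₀).source)
    (p : ℕ) : ∃ c : ℝ, ∀ x ∈ C, ∀ α : Alt n p,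
      nsq g x (α.compContinuousLinearMap (tang n (chartAt (E n) x₀) x)) ≤ c * ‖α‖ ^ 2 ∧
      ‖α‖ ^ 2 ≤ c * nsq g x (α.compContinuousLinearMap (tang n (chartAt (E n) x₀) x)) := by
  obtain ⟨a, b, ha, hb, h⟩ := exists_gx_bounds g hC hs
  set κ := chartAt (E n) x₀
  refine ⟨n ^ p * a⁻¹ ^ p + p.factorial * b ^ p, fun x hx α => ⟨?_, ?_⟩⟩
  · refine (nsq_le_of_forall g x _ (c := a⁻¹ ^ p * ‖α‖ ^ 2) fun w hw => ?_).trans ?_
    · refine (pow_le_pow_left₀ (norm_nonneg _) (α.le_opNorm (tang n κ x ∘ w)) 2).trans ?_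
      rw [mul_pow, mul_comm, ← Finset.prod_pow]
      refine mul_le_mul_of_nonneg_right ?_ (sq_nonneg _)
      refine (Finset.prod_le_prod (fun k _ => sq_nonneg _) fun k _ => ?_).trans
        (le_of_eq (by simp : ∏ _k : Fin p, a⁻¹ = a⁻¹ ^ p))
      have := (h x hx (w k)).1
      rw [hw k] at this
      rw [← mul_one a⁻¹, le_inv_mul_iff₀ ha]
      exact this
    · rw [← mul_assoc]
      exact mul_le_mul_of_nonneg_right (le_add_of_nonneg_right (by positivity)) (sq_nonneg _)
  · have h0 := nsq_nonneg g x (α.compContinuousLinearMap (tang n κ x))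
    set N := nsq g x (α.compContinuousLinearMap (tang n κ x)) with hN
    have h1 : ‖α‖ ≤ √(p.factorial * N * b ^ p) := by
      refine α.opNorm_le_bound (Real.sqrt_nonneg _) fun v => ?_
      have hz := κ.map_source (hs hx)
      have e : ∀ u, tang n κ x (tang n κ.symm (κ x) u) = u := fun u => by
        have := tang_chart_comp_symm hz u
        rwa [κ.left_inv (hs hx)] at this
      have h2 := norm_apply_sq_le g x (α.compContinuousLinearMap (tang n κ x))
        fun k => tang n κ.symm (κ x) (v k)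
      have h3 : α.compContinuousLinearMap (tang n κ x) (fun k => tang n κ.symm (κ x) (v k)) =
          α v := by
        rw [ContinuousAlternatingMap.compContinuousLinearMap_apply]
        exact congrArg α (funext fun k => e _)
      rw [h3] at h2
      refine (pow_le_pow_iff_left₀ (norm_nonneg _) (by positivity) two_ne_zero).1 (h2.trans ?_)
      rw [mul_pow, Real.sq_sqrt (by positivity), mul_assoc _ (b ^ p), ← Finset.prod_pow]
      refine mul_le_mul_of_nonneg_left ?_ (by positivity)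
      refine (Finset.prod_le_prod (fun k _ => gx_nonneg g _ _) fun k _ => (h x hx _).2).trans ?_
      simp [e, Finset.prod_mul_distrib]
    refine (pow_le_pow_left₀ (norm_nonneg _) h1 2).trans ?_
    rw [Real.sq_sqrt (by positivity), add_mul, mul_right_comm]
    exact le_add_of_nonneg_left (by positivity)

lemma dfun_bound {x₀ : M} {C : Set M} (hC : IsCompact C) (hs : C ⊆ (chartAt (E n) x₀).source)
    {χ : M → ℝ} (hχ : ContMDiff 𝓘(ℝ, E n) 𝓘(ℝ, ℝ) ∞ χ) :
    ∃ c : ℝ, ∀ x ∈ C, ∀ v : E n, dfun n χ x v ^ 2 ≤ c * gx g x v v := by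
  obtain ⟨a, b, ha, -, h⟩ := exists_gx_bounds g hC hs
  set κ := chartAt (E n) x₀
  have hK : IsCompact (κ '' C) := hC.image_of_continuousOn (κ.continuousOn.mono hs)
  have ht : κ '' C ⊆ κ.target := by rintro _ ⟨x, hx, rfl⟩; exact κ.map_source (hs hx)
  have h1 : ContDiffOn ℝ ∞ (χ ∘ κ.symm) κ.target :=
    (hχ.comp_contMDiffOn contMDiffOn_chart_symm).contDiffOn
  obtain ⟨K, hK'⟩ := hK.exists_bound_of_continuousOn
    ((h1.continuousOn_fderiv_of_isOpen κ.open_target (by simp)).mono ht)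
  refine ⟨K ^ 2 * a⁻¹, fun x hx v => ?_⟩
  have e : dfun n χ x = (fderiv ℝ (χ ∘ κ.symm) (κ x)).comp (tang n κ x) := by
    have e1 : χ =ᶠ[𝓝 x] (χ ∘ κ.symm) ∘ κ := by
      filter_upwards [κ.open_source.mem_nhds (hs hx)] with u hu
      simp [κ.left_inv hu]
    rw [dfun, e1.mfderiv_eq, mfderiv_comp x (I' := 𝓘(ℝ, E n)) (((h1.contDiffAt
      (κ.open_target.mem_nhds (κ.map_source (hs hx)))).differentiableAt (by simp)).mdifferentiableAt)
      ((contMDiffAt_chart (hs hx)).mdifferentiableAt (by simp)), mfderiv_eq_fderiv]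
    rfl
  have h2 := (fderiv ℝ (χ ∘ κ.symm) (κ x)).le_of_opNorm_le (hK' _ (mem_image_of_mem _ hx))
    (tang n κ x v)
  rw [e, ← sq_abs]
  refine (pow_le_pow_left₀ (abs_nonneg _) h2 2).trans ?_
  rw [mul_pow, mul_assoc]
  exact mul_le_mul_of_nonneg_left ((le_inv_mul_iff₀ ha).2 (h x hx v).1) (sq_nonneg _)

variable [MeasurableSpace M] [BorelSpace M] {μ : Measure M}

omit [IsManifold 𝓘(ℝ, E n) ∞ M] in
lemma measurableSet_chart_image {x : M} {A : Set M} (hA : MeasurableSet A)
    (hs : A ⊆ (chartAt (E n) x).source) : MeasurableSet (chartAt (E n) x '' A) := by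
  set κ := chartAt (E n) x
  have := κ.open_target.measurableSet.subtype_image
    ((continuousOn_iff_continuous_domRestrict.1 κ.continuousOn_symm).measurable hA)
  rw [κ.image_eq_target_inter_inv_preimage hs]
  convert this using 1
  ext z
  simp [and_comm]

lemma lintegral_chart (hμ : IsVolume g μ) {x : M} {A : Set M} (hA : MeasurableSet A)
    (hs : A ⊆ (chartAt (E n) x).source) {f : E n → ℝ≥0∞}
    (hf : AEMeasurable f (volume.restrict (chartAt (E n) x '' A))) :
    ∫⁻ y in A, f (chartAt (E n) x y) ∂μ = ∫⁻ z in chartAt (E n) x '' A,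
      ENNReal.ofReal √(gram g (chartAt (E n) x).symm z).det * f z := by
  set κ := chartAt (E n) x
  have ht : κ '' A ⊆ κ.target := by rintro _ ⟨y, hy, rfl⟩; exact κ.map_source (hs hy)
  have hm := measurableSet_chart_image hA hs
  have hκ : AEMeasurable κ (μ.restrict A) := (κ.continuousOn.mono hs).aemeasurable hA
  have hρ : AEMeasurable (fun z => ENNReal.ofReal √(gram g κ.symm z).det)
      (volume.restrict (κ '' A)) :=
    (((continuousOn_sqrt_det g x).mono ht).aemeasurable hm).ennreal_ofReal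
  have e : (μ.restrict A).map κ = (volume.restrict (κ '' A)).withDensity
      fun z => ENNReal.ofReal √(gram g κ.symm z).det := by
    ext B hB
    have hB' : MeasurableSet (κ ⁻¹' B ∩ A) := by
      have := hA.subtype_image
        ((continuousOn_iff_continuous_domRestrict.1 (κ.continuousOn.mono hs)).measurable hB)
      convert this using 1
      ext z
      simp
    rw [Measure.map_apply_of_aemeasurable hκ hB, Measure.restrict_apply' hA,
      hμ x _ hB' (inter_subset_right.trans hs), withDensity_apply _ hB,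
      Measure.restrict_restrict hB, image_preimage_inter]
  rw [← lintegral_map' (e ▸ hf.mono_ac (withDensity_absolutelyContinuous _ _)) hκ, e,
    lintegral_withDensity_eq_lintegral_mul₀ hρ hf]
  rfl

lemma lintegral_bounds (hμ : IsVolume g μ) {x₀ : M} {C : Set M} (hC : IsCompact C)
    (hs : C ⊆ (chartAt (E n) x₀).source) :
    ∃ c : ℝ, ∀ A : Set M, MeasurableSet A → A ⊆ C → ∀ f : E n → ℝ≥0∞,
      AEMeasurable f (volume.restrict (chartAt (E n) x₀ '' A)) →
      ∫⁻ x in A, f (chartAt (E n) x₀ x) ∂μ ≤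
          ENNReal.ofReal c * ∫⁻ z in chartAt (E n) x₀ '' A, f z ∧
        ∫⁻ z in chartAt (E n) x₀ '' A, f z ≤
          ENNReal.ofReal c * ∫⁻ x in A, f (chartAt (E n) x₀ x) ∂μ := by
  set κ := chartAt (E n) x₀
  have hK : IsCompact (κ '' C) := hC.image_of_continuousOn (κ.continuousOn.mono hs)
  have ht : κ '' C ⊆ κ.target := by rintro _ ⟨x, hx, rfl⟩; exact κ.map_source (hs hx)
  have hc := (continuousOn_sqrt_det g x₀).mono ht
  obtain ⟨a, ha, h1⟩ := hK.exists_forall_le' hc (a := 0) fun z hz =>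
    Real.sqrt_pos.2 (det_gram_pos g (ht hz))
  obtain ⟨b, h2⟩ := hK.bddAbove_image hc
  refine ⟨max b a⁻¹, fun A hA hAC f hf => ?_⟩
  have hm := measurableSet_chart_image hA (hAC.trans hs)
  rw [lintegral_chart g hμ hA (hAC.trans hs) hf, ← lintegral_const_mul' _ _ ENNReal.ofReal_ne_top,
    ← lintegral_const_mul' _ _ ENNReal.ofReal_ne_top]
  refine ⟨setLIntegral_mono' hm fun z hz => mul_le_mul_left (ENNReal.ofReal_le_ofReal
    ((h2 (mem_image_of_mem _ (image_mono hAC hz))).trans (le_max_left _ _))) _,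
    setLIntegral_mono' hm fun z hz => ?_⟩
  rw [← mul_assoc, ← ENNReal.ofReal_mul' (Real.sqrt_nonneg _)]
  refine le_mul_of_one_le_left zero_le (ENNReal.one_le_ofReal.2 ?_)
  calc (1 : ℝ) = a⁻¹ * a := (inv_mul_cancel₀ ha.ne').symm
    _ ≤ _ := mul_le_mul (le_max_right _ _) (h1 z (image_mono hAC hz)) ha.le
      (le_max_of_le_right (inv_pos.2 ha).le)

lemma measure_image (hμ : IsVolume g μ) {f : M ≃ M} (hf : ContMDiff 𝓘(ℝ, E n) 𝓘(ℝ, E n) ∞ f)
    (hi : ∀ x v w, gx g (f x) (tang n f x v) (tang n f x w) = gx g x v w) {x y : M} {B : Set M}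
    (hB : MeasurableSet B) (hy : B ⊆ (chartAt (E n) y).source)
    (hx : f ⁻¹' B ⊆ (chartAt (E n) x).source) : μ (f ⁻¹' B) = μ B := by
  have hA : MeasurableSet (f ⁻¹' B) := hf.continuous.measurable hB
  rw [hμ x _ hA hx, hμ y _ hB hy]
  set κ := chartAt (E n) x
  set κ' := chartAt (E n) y
  have hψ : ∀ u ∈ f ⁻¹' B, ContMDiffAt 𝓘(ℝ, E n) 𝓘(ℝ, E n) ∞ (κ' ∘ f ∘ κ.symm) (κ u) :=
    fun u hu => (contMDiffAt_chart (by simpa [κ.left_inv (hx hu)] using hy hu)).comp _
      (hf.contMDiffAt.comp _ (contMDiffAt_chart_symm (κ.map_source (hx hu))))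
  have e : κ' '' B = (κ' ∘ f ∘ κ.symm) '' (κ '' (f ⁻¹' B)) := by
    conv_lhs => rw [← f.image_preimage B]
    rw [image_image, image_image]
    exact image_congr fun u hu => by simp [κ.left_inv (hx hu)]
  rw [e, lintegral_image_eq_lintegral_abs_det_fderiv_mul volume (measurableSet_chart_image hA hx)
    (f' := fderiv ℝ (κ' ∘ f ∘ κ.symm))]
  · refine setLIntegral_congr_fun (measurableSet_chart_image hA hx) ?_
    rintro _ ⟨u, hu, rfl⟩
    have hu' : f (κ.symm (κ u)) ∈ κ'.source := by simpa [κ.left_inv (hx hu)] using hy hu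
    have hz := κ.map_source (hx hu)
    have e1 : κ'.symm ∘ (κ' ∘ f ∘ κ.symm) =ᶠ[𝓝 (κ u)] f ∘ κ.symm := by
      have := (hf.continuous.continuousAt.comp (κ.continuousAt_symm hz)).preimage_mem_nhds
        (κ'.open_source.mem_nhds hu')
      filter_upwards [this] with z hz using κ'.left_inv hz
    have e2 := tang_comp (f := κ'.symm) (g := κ' ∘ f ∘ κ.symm) (x := κ u)
      ((contMDiffAt_chart_symm (κ'.map_source hu')).mdifferentiableAt (by simp))
      ((hψ u hu).mdifferentiableAt (by simp))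
    rw [tang_congr e1, tang_comp (f := f) (g := κ.symm) (hf.contMDiffAt.mdifferentiableAt (by simp))
      ((contMDiffAt_chart_symm hz).mdifferentiableAt (by simp)),
      tang_eq_fderiv (κ' ∘ f ∘ κ.symm)] at e2
    have e3 : gram g κ.symm (κ u) = Matrix.of fun i j => gL g (κ'.symm ((κ' ∘ f ∘ κ.symm) (κ u)))
        (tang n κ'.symm ((κ' ∘ f ∘ κ.symm) (κ u)) (fderiv ℝ (κ' ∘ f ∘ κ.symm) (κ u) (ee i)))
        (tang n κ'.symm ((κ' ∘ f ∘ κ.symm) (κ u)) (fderiv ℝ (κ' ∘ f ∘ κ.symm) (κ u) (ee j))) := by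
      ext i j
      have e4 := fun v => DFunLike.congr_fun e2 v
      simp only [ContinuousLinearMap.comp_apply] at e4
      rw [Matrix.of_apply, ← e4, ← e4, ← gx_eq,
        show κ'.symm ((κ' ∘ f ∘ κ.symm) (κ u)) = f (κ.symm (κ u)) from κ'.left_inv hu', hi]
      rfl
    dsimp only
    rw [e3, det_bil, Real.sqrt_mul (sq_nonneg _), Real.sqrt_sq_eq_abs,
      ENNReal.ofReal_mul (abs_nonneg _)]
    rfl
  · rintro _ ⟨u, hu, rfl⟩
    exact ((hψ u hu).contDiffAt.differentiableAt (by simp)).hasFDerivAt.hasFDerivWithinAt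
  · rintro _ ⟨u, hu, rfl⟩ _ ⟨v, hv, rfl⟩ h
    have h' : κ' (f (κ.symm (κ u))) = κ' (f (κ.symm (κ v))) := h
    rw [κ.left_inv (hx hu), κ.left_inv (hx hv)] at h'
    rw [f.injective (κ'.injOn (hy hu) (hy hv) h')]

lemma measurePreserving [SecondCountableTopology M] (hμ : IsVolume g μ) {f : M ≃ M}
    (hf : ContMDiff 𝓘(ℝ, E n) 𝓘(ℝ, E n) ∞ f) (hf' : ContMDiff 𝓘(ℝ, E n) 𝓘(ℝ, E n) ∞ f.symm)
    (hi : ∀ x v w, gx g (f x) (tang n f x v) (tang n f x w) = gx g x v w) :
    MeasurePreserving f μ μ := by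
  have hm := hf.continuous.measurable
  let O : M → Set M := fun y =>
    (chartAt (E n) y).source ∩ f.symm ⁻¹' (chartAt (E n) (f.symm y)).source
  have hO : ∀ y, IsOpen (O y) := fun y =>
    (chartAt (E n) y).open_source.inter ((chartAt (E n) _).open_source.preimage hf'.continuous)
  obtain ⟨s, hs, hc⟩ := TopologicalSpace.countable_cover_nhds (f := O) fun y =>
    (hO y).mem_nhds ⟨mem_chart_source _ _, mem_chart_source _ _⟩
  refine ⟨hm, Measure.ext_of_biUnion_eq_univ hs hc fun y _ => ?_⟩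
  ext B hB
  have hB' := hB.inter (hO y).measurableSet
  rw [Measure.restrict_apply hB, Measure.restrict_apply hB, Measure.map_apply hm hB']
  exact measure_image g hμ hf hi hB' (fun u hu => hu.2.1) fun u hu => by simpa using hu.2.2

theorem vol : VolStmt := fun _ _ _ _ _ _ _ _ _ g _ hμ =>
  ⟨fun _ hf hf' hi => measurePreserving g hμ hf hf' hi, fun _ _ hC hs =>
    ⟨lintegral_bounds g hμ hC hs, nsq_bounds g hC hs, fun _ hχ => dfun_bound g hC hs hχ⟩⟩

end Pool.Agent.MP_d9582c_gt.H92
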